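import Mathlib

set_option autoImplicit false

/-!
# The Paneitz operator on the unit 4-sphere

The unit sphere `S4` of `ℝ^5 = EuclideanSpace ℝ (Fin 5)` carries its standard smooth structure
from Mathlib.  The Laplace-Beltrami operator of the round metric is defined by the standard
formula `(Δ_{S^4} u)(x) = Δ_{ℝ^5}(u(y/|y|))` at `y = x`, for `x` on the sphere.
-/

namespace Pool.Agent.Helper42_Paneitz

open scoped Manifold ContDiff

/-- Euclidean `5`-space. -/
abbrev E5 : Type := EuclideanSpace ℝ (Fin 5)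

/-- The unit `4`-sphere in `ℝ^5`. -/
abbrev S4 : Type := Metric.sphere (0 : E5) 1

theorem normalize_mem {x : E5} (h : x ≠ 0) : ‖x‖⁻¹ • x ∈ Metric.sphere (0 : E5) 1 := by
  have hx : ‖x‖ ≠ 0 := norm_ne_zero_iff.2 h
  rw [mem_sphere_zero_iff_norm, norm_smul, norm_inv, norm_norm, inv_mul_cancel₀ hx]

open Classical in
/-- The extension of `u : S^4 → ℝ` to a function on `ℝ^5` that is constant on rays:
`x ↦ u(x/|x|)` for `x ≠ 0` (and `0` at the origin). -/
noncomputable def radialExt (u : S4 → ℝ) (x : E5) : ℝ :=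
  if h : x ≠ 0 then u ⟨‖x‖⁻¹ • x, normalize_mem h⟩ else 0

/-- The Laplace-Beltrami operator of the round metric of `S^4` (sign convention `-Δ ≥ 0`):
the Euclidean Laplacian (Mathlib's) of the extension constant on rays, restricted to `S^4`. -/
noncomputable def sphLaplacian (u : S4 → ℝ) (x : S4) : ℝ :=
  Laplacian.laplacian (radialExt u) (x : E5)

/-- The Paneitz operator `P₄ u = Δ² u - 2 Δ u` of the round metric of `S^4`. -/
noncomputable def paneitz (u : S4 → ℝ) (x : S4) : ℝ :=
  sphLaplacian (sphLaplacian u) x - 2 * sphLaplacian u x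

/-- `Q : S^4 → ℝ` is the Paneitz (`Q`-)curvature of a metric `e^{2u} g₀` conformal to the round
metric: `Q` is smooth and `Δ²u - 2Δu = Q e^{4u} - 6` has a smooth solution `u`. -/
def IsPaneitzCurvature (Q : S4 → ℝ) : Prop :=
  ContMDiff (𝓡 4) 𝓘(ℝ, ℝ) ∞ Q ∧
    ∃ u : S4 → ℝ, ContMDiff (𝓡 4) 𝓘(ℝ, ℝ) ∞ u ∧
      ∀ x : S4, paneitz u x = Q x * Real.exp (4 * u x) - 6

end Pool.Agent.Helper42_Paneitz
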