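import Mathlib
import Pool.Agent.Helper42_Paneitz.Defs

set_option autoImplicit false

namespace Pool.Agent.Helper42_Paneitz

open scoped Manifold ContDiff InnerProductSpace Topology
open Filter

theorem hasDerivAt_line (x v : E5) (t : ℝ) : HasDerivAt (fun t : ℝ => x + t • v) v t := by
  have := ((hasDerivAt_id t).smul_const v).const_add x
  simpa using this

theorem tendsto_line (x v : E5) : Tendsto (fun t : ℝ => x + t • v) (𝓝 0) (𝓝 x) := by
  have := (hasDerivAt_line x v 0).continuousAt.tendsto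
  simpa using this

/-- first derivative along a line -/
theorem hasDerivAt_comp_line {g : E5 → ℝ} {x v : E5} {t : ℝ}
    (hd : DifferentiableAt ℝ g (x + t • v)) :
    HasDerivAt (fun t => g (x + t • v)) (fderiv ℝ g (x + t • v) v) t :=
  HasFDerivAt.comp_hasDerivAt (l := g) t hd.hasFDerivAt (hasDerivAt_line x v t)

theorem eventually_hasDerivAt_line {g : E5 → ℝ} {x v : E5} (hg : ContDiffAt ℝ 2 g x) :
    ∀ᶠ t in 𝓝 (0 : ℝ), HasDerivAt (fun t => g (x + t • v)) (fderiv ℝ g (x + t • v) v) t := by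
  have hev : ∀ᶠ y in 𝓝 x, ContDiffAt ℝ 2 g y := hg.eventually (by simp)
  filter_upwards [(tendsto_line x v).eventually hev] with t hgt
  exact hasDerivAt_comp_line (hgt.differentiableAt (by norm_num))

theorem hasDerivAt_fderiv_line {g : E5 → ℝ} {x v : E5} (hg : ContDiffAt ℝ 2 g x) :
    HasDerivAt (fun t : ℝ => fderiv ℝ g (x + t • v) v) (fderiv ℝ (fderiv ℝ g) x v v) 0 := by
  have hfd : DifferentiableAt ℝ (fderiv ℝ g) x := by
    have : ContDiffAt ℝ 1 (fderiv ℝ g) x := hg.fderiv_right (by norm_num)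
    exact this.differentiableAt (by norm_num)
  have h0 : HasFDerivAt (fderiv ℝ g) (fderiv ℝ (fderiv ℝ g) x) (x + (0 : ℝ) • v) := by
    simpa using hfd.hasFDerivAt
  have h1 : HasDerivAt (fun t : ℝ => fderiv ℝ g (x + t • v)) (fderiv ℝ (fderiv ℝ g) x v) 0 :=
    HasFDerivAt.comp_hasDerivAt (l := fderiv ℝ g) 0 h0 (hasDerivAt_line x v 0)
  have := h1.clm_apply (hasDerivAt_const (0 : ℝ) v)
  simpa using this

/-- second derivative along a line -/
theorem iteratedFDeriv_two_line {g : E5 → ℝ} {x v : E5} (hg : ContDiffAt ℝ 2 g x)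
    {φ1 : ℝ → ℝ} {φ2 : ℝ} (h1 : ∀ᶠ t in 𝓝 (0 : ℝ), HasDerivAt (fun t => g (x + t • v)) (φ1 t) t)
    (h2 : HasDerivAt φ1 φ2 0) : iteratedFDeriv ℝ 2 g x ![v, v] = φ2 := by
  rw [iteratedFDeriv_two_apply]
  simp only [Matrix.cons_val_zero, Matrix.cons_val_one]
  have heq : ∀ᶠ t in 𝓝 (0 : ℝ), φ1 t = fderiv ℝ g (x + t • v) v := by
    filter_upwards [h1, eventually_hasDerivAt_line (v := v) hg] with t ht hgt
    exact ht.unique hgt
  have h4 : HasDerivAt φ1 (fderiv ℝ (fderiv ℝ g) x v v) 0 :=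
    (hasDerivAt_fderiv_line hg).congr_of_eventuallyEq heq
  exact h4.unique h2

/-- Laplacian as a sum over the standard basis. -/
theorem laplacian_eq_sum (g : E5 → ℝ) (x : E5) :
    Laplacian.laplacian g x = ∑ i : Fin 5, iteratedFDeriv ℝ 2 g x
      ![EuclideanSpace.basisFun (Fin 5) ℝ i, EuclideanSpace.basisFun (Fin 5) ℝ i] := by
  rw [InnerProductSpace.laplacian_eq_iteratedFDeriv_orthonormalBasis g
    (EuclideanSpace.basisFun (Fin 5) ℝ)]

/-- Second order necessary condition at a local maximum. -/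
theorem second_deriv_nonpos {φ : ℝ → ℝ} {φ1 : ℝ → ℝ} {φ2 : ℝ}
    (hmax : IsLocalMax φ 0) (h1 : ∀ᶠ t in 𝓝 (0 : ℝ), HasDerivAt φ (φ1 t) t)
    (h2 : HasDerivAt φ1 φ2 0) : φ2 ≤ 0 := by
  by_contra hpos
  push Not at hpos
  have hd : deriv φ =ᶠ[𝓝 0] φ1 := h1.mono fun t ht => ht.deriv
  have hdd : deriv (deriv φ) 0 = φ2 := by
    rw [hd.deriv_eq]; exact h2.deriv
  have h0 : deriv φ 0 = 0 := hmax.deriv_eq_zero
  have hc : ContinuousAt φ 0 := (h1.self_of_nhds).continuousAt
  have hmin : IsLocalMin φ 0 := isLocalMin_of_deriv_deriv_pos (by rw [hdd]; exact hpos) h0 hc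
  have hconst : φ =ᶠ[𝓝 0] fun _ => φ 0 := by
    filter_upwards [hmax, hmin] with t ht1 ht2
    exact le_antisymm ht1 ht2
  have h5 : deriv φ =ᶠ[𝓝 0] fun _ => (0 : ℝ) := by
    have := hconst.deriv
    refine this.trans ?_
    exact Eventually.of_forall fun t => by simp
  have h6 : deriv (deriv φ) 0 = 0 := by
    rw [h5.deriv_eq]; simp
  rw [hdd] at h6
  linarith

/-- At a local maximum of a `C²` function the Laplacian is nonpositive. -/
theorem laplacian_nonpos_of_isLocalMax {g : E5 → ℝ} {x : E5} (hg : ContDiffAt ℝ 2 g x)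
    (hmax : IsLocalMax g x) : Laplacian.laplacian g x ≤ 0 := by
  rw [laplacian_eq_sum]
  apply Finset.sum_nonpos
  intro i _
  set v := EuclideanSpace.basisFun (Fin 5) ℝ i
  rw [iteratedFDeriv_two_line hg (eventually_hasDerivAt_line (v := v) hg)
    (hasDerivAt_fderiv_line hg)]
  refine second_deriv_nonpos (φ := fun t => g (x + t • v)) ?_
    (eventually_hasDerivAt_line (v := v) hg) (hasDerivAt_fderiv_line hg)
  have h : ∀ᶠ t in 𝓝 (0 : ℝ), g (x + t • v) ≤ g x := (tendsto_line x v).eventually hmax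
  show ∀ᶠ t in 𝓝 (0 : ℝ), g (x + t • v) ≤ g (x + (0 : ℝ) • v)
  filter_upwards [h] with t ht
  rw [zero_smul, add_zero]
  exact ht

theorem laplacian_nonneg_of_isLocalMin {g : E5 → ℝ} {x : E5} (hg : ContDiffAt ℝ 2 g x)
    (hmin : IsLocalMin g x) : 0 ≤ Laplacian.laplacian g x := by
  have hneg : ContDiffAt ℝ 2 (-g) x := hg.neg
  have hmax : IsLocalMax (-g) x := hmin.neg
  have h := laplacian_nonpos_of_isLocalMax hneg hmax
  have h2 : Laplacian.laplacian (-g) x = - Laplacian.laplacian g x := by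
    rw [InnerProductSpace.laplacian_neg]; rfl
  rw [h2] at h
  linarith

end Pool.Agent.Helper42_Paneitz
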