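import Mathlib
import Pool.Agent.Helper42_Paneitz.Calc

set_option autoImplicit false

namespace Pool.Agent.Helper42_Paneitz

open scoped Manifold ContDiff InnerProductSpace Topology
open Filter

theorem two_le_infty : (2 : WithTop ℕ∞) ≤ ∞ := ENat.LEInfty.out

theorem inner_basis (a : E5) (i : Fin 5) :
    ⟪a, EuclideanSpace.basisFun (Fin 5) ℝ i⟫_ℝ = a i := by
  rw [EuclideanSpace.basisFun_apply, EuclideanSpace.inner_single_right]; simp

theorem radialExt_apply (u : S4 → ℝ) {y : E5} (h : y ≠ 0) :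
    radialExt u y = u ⟨‖y‖⁻¹ • y, normalize_mem h⟩ := by
  unfold radialExt
  rw [dif_pos h]

theorem S4_ne_zero (x : S4) : (x : E5) ≠ 0 := by
  intro h
  have hx := x.2
  rw [mem_sphere_zero_iff_norm, h, norm_zero] at hx
  exact zero_ne_one hx

theorem S4_norm (x : S4) : ‖(x : E5)‖ = 1 := mem_sphere_zero_iff_norm.1 x.2

theorem radialExt_coe (u : S4 → ℝ) (x : S4) : radialExt u (x : E5) = u x := by
  rw [radialExt_apply u (S4_ne_zero x)]
  congr 1
  apply Subtype.ext
  simp [S4_norm x]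

/-- Smoothness of a function on the sphere, via its radial extension. -/
def Sm (u : S4 → ℝ) : Prop := ∀ y : E5, y ≠ 0 → ContDiffAt ℝ ∞ (radialExt u) y

theorem eventually_ne_zero {y : E5} (h : y ≠ 0) : ∀ᶠ z in 𝓝 y, z ≠ 0 :=
  isOpen_compl_singleton.eventually_mem h

theorem contDiffAt_normalize {y : E5} (h : y ≠ 0) :
    ContDiffAt ℝ ∞ (fun z : E5 => ‖z‖⁻¹ • z) y := by
  have h1 : ContDiffAt ℝ ∞ (fun z : E5 => ‖z‖) y := contDiffAt_norm ℝ h
  have h2 : ContDiffAt ℝ ∞ (fun z : E5 => ‖z‖⁻¹) y := h1.inv (norm_ne_zero_iff.2 h)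
  exact h2.smul contDiffAt_id

/-- A function on the sphere that is the restriction of a function smooth near the sphere. -/
theorem sm_of_restrict (f : E5 → ℝ) (hf : ∀ x : S4, ContDiffAt ℝ ∞ f x) :
    Sm (fun x : S4 => f x) := by
  intro y hy
  have heq : radialExt (fun x : S4 => f x) =ᶠ[𝓝 y] fun z => f (‖z‖⁻¹ • z) := by
    filter_upwards [eventually_ne_zero hy] with z hz
    rw [radialExt_apply _ hz]
  refine ContDiffAt.congr_of_eventuallyEq ?_ heq
  have h1 := hf ⟨‖y‖⁻¹ • y, normalize_mem hy⟩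
  exact h1.comp y (contDiffAt_normalize hy)

theorem sm_const (c : ℝ) : Sm (fun _ => c) := sm_of_restrict (fun _ => c) fun _ => contDiffAt_const

theorem radialExt_add (u v : S4 → ℝ) {y : E5} (hy : y ≠ 0) :
    radialExt (fun x => u x + v x) y = radialExt u y + radialExt v y := by
  simp only [radialExt_apply _ hy]

theorem radialExt_smul (c : ℝ) (u : S4 → ℝ) {y : E5} (hy : y ≠ 0) :
    radialExt (fun x => c * u x) y = c * radialExt u y := by
  simp only [radialExt_apply _ hy]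

theorem radialExt_add_ev (u v : S4 → ℝ) {y : E5} (hy : y ≠ 0) :
    radialExt (fun x => u x + v x) =ᶠ[𝓝 y] radialExt u + radialExt v := by
  filter_upwards [eventually_ne_zero hy] with z hz
  exact radialExt_add u v hz

theorem radialExt_smul_ev (c : ℝ) (u : S4 → ℝ) {y : E5} (hy : y ≠ 0) :
    radialExt (fun x => c * u x) =ᶠ[𝓝 y] c • radialExt u := by
  filter_upwards [eventually_ne_zero hy] with z hz
  exact radialExt_smul c u hz

theorem Sm.add {u v : S4 → ℝ} (hu : Sm u) (hv : Sm v) : Sm (fun x => u x + v x) := fun y hy =>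
  ((hu y hy).add (hv y hy)).congr_of_eventuallyEq (radialExt_add_ev u v hy)

theorem Sm.smul {u : S4 → ℝ} (c : ℝ) (hu : Sm u) : Sm (fun x => c * u x) := fun y hy =>
  ((hu y hy).const_smul c).congr_of_eventuallyEq (radialExt_smul_ev c u hy)

theorem lap_congr {f g : E5 → ℝ} {y : E5} (h : f =ᶠ[𝓝 y] g) :
    Laplacian.laplacian f y = Laplacian.laplacian g y :=
  (InnerProductSpace.laplacian_congr_nhds h).self_of_nhds

theorem sphLaplacian_add {u v : S4 → ℝ} (hu : Sm u) (hv : Sm v) (x : S4) :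
    sphLaplacian (fun x => u x + v x) x = sphLaplacian u x + sphLaplacian v x := by
  unfold sphLaplacian
  have h1 : ContDiffAt ℝ 2 (radialExt u) x := (hu x (S4_ne_zero x)).of_le two_le_infty
  have h2 : ContDiffAt ℝ 2 (radialExt v) x := (hv x (S4_ne_zero x)).of_le two_le_infty
  rw [lap_congr (radialExt_add_ev u v (S4_ne_zero x)), h1.laplacian_add h2]

theorem sphLaplacian_smul {u : S4 → ℝ} (c : ℝ) (hu : Sm u) (x : S4) :
    sphLaplacian (fun x => c * u x) x = c * sphLaplacian u x := by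
  unfold sphLaplacian
  have h1 : ContDiffAt ℝ 2 (radialExt u) x := (hu x (S4_ne_zero x)).of_le two_le_infty
  rw [lap_congr (radialExt_smul_ev c u (S4_ne_zero x)),
    InnerProductSpace.laplacian_smul (𝕜 := ℝ) c h1]
  rfl

theorem contDiffAt_laplacian {f : E5 → ℝ} {y : E5} (h : ContDiffAt ℝ ∞ f y) :
    ContDiffAt ℝ ∞ (Laplacian.laplacian f) y := by
  have heq : Laplacian.laplacian f = fun x => ∑ i : Fin 5, iteratedFDeriv ℝ 2 f x
      ![EuclideanSpace.basisFun (Fin 5) ℝ i, EuclideanSpace.basisFun (Fin 5) ℝ i] := by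
    funext x; exact laplacian_eq_sum f x
  rw [heq]
  have h2 : ContDiffAt ℝ ∞ (iteratedFDeriv ℝ 2 f) y := by
    apply h.iteratedFDeriv_right
    exact le_refl _
  apply ContDiffAt.sum
  intro i _
  have := (ContinuousMultilinearMap.apply ℝ (fun _ : Fin 2 => E5) ℝ
    ![EuclideanSpace.basisFun (Fin 5) ℝ i, EuclideanSpace.basisFun (Fin 5) ℝ i]).contDiff
    (n := ∞)
  exact this.contDiffAt.comp y h2

theorem Sm.sphLaplacian {u : S4 → ℝ} (hu : Sm u) : Sm (sphLaplacian u) :=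
  sm_of_restrict (Laplacian.laplacian (radialExt u)) fun x =>
    contDiffAt_laplacian (hu x (S4_ne_zero x))

theorem paneitz_add {u v : S4 → ℝ} (hu : Sm u) (hv : Sm v) (x : S4) :
    paneitz (fun x => u x + v x) x = paneitz u x + paneitz v x := by
  unfold paneitz
  have h1 : Helper42_Paneitz.sphLaplacian (fun x => u x + v x) =
      fun x => Helper42_Paneitz.sphLaplacian u x + Helper42_Paneitz.sphLaplacian v x := by
    funext x; exact sphLaplacian_add hu hv x
  rw [h1, sphLaplacian_add hu.sphLaplacian hv.sphLaplacian]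
  ring

theorem paneitz_smul {u : S4 → ℝ} (c : ℝ) (hu : Sm u) (x : S4) :
    paneitz (fun x => c * u x) x = c * paneitz u x := by
  unfold paneitz
  have h1 : Helper42_Paneitz.sphLaplacian (fun x => c * u x) =
      fun x => c * Helper42_Paneitz.sphLaplacian u x := by
    funext x; exact sphLaplacian_smul c hu x
  rw [h1, sphLaplacian_smul c hu.sphLaplacian]
  ring

theorem sphLaplacian_const (c : ℝ) (x : S4) : sphLaplacian (fun _ => c) x = 0 := by
  unfold sphLaplacian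
  have : radialExt (fun _ : S4 => c) =ᶠ[𝓝 (x : E5)] fun _ => c := by
    filter_upwards [eventually_ne_zero (S4_ne_zero x)] with z hz
    rw [radialExt_apply _ hz]
  rw [lap_congr this, InnerProductSpace.laplacian_const]
  rfl

theorem paneitz_const (c : ℝ) (x : S4) : paneitz (fun _ => c) x = 0 := by
  unfold paneitz
  have h1 : sphLaplacian (fun _ : S4 => c) = fun _ => 0 := by
    funext x; exact sphLaplacian_const c x
  rw [h1, sphLaplacian_const]
  ring

/-- at a maximum point the spherical Laplacian is nonpositive -/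
theorem sphLaplacian_nonpos {u : S4 → ℝ} (hu : Sm u) (x : S4) (hmax : ∀ y, u y ≤ u x) :
    sphLaplacian u x ≤ 0 := by
  apply laplacian_nonpos_of_isLocalMax ((hu x (S4_ne_zero x)).of_le two_le_infty)
  filter_upwards [eventually_ne_zero (S4_ne_zero x)] with z hz
  rw [radialExt_coe, radialExt_apply _ hz]
  exact hmax _

theorem sphLaplacian_nonneg {u : S4 → ℝ} (hu : Sm u) (x : S4) (hmin : ∀ y, u x ≤ u y) :
    0 ≤ sphLaplacian u x := by
  apply laplacian_nonneg_of_isLocalMin ((hu x (S4_ne_zero x)).of_le two_le_infty)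
  filter_upwards [eventually_ne_zero (S4_ne_zero x)] with z hz
  rw [radialExt_coe, radialExt_apply _ hz]
  exact hmin _

/-- Norm along a coordinate line through a point of the sphere. -/
theorem norm_sq_line (x : S4) (i : Fin 5) (t : ℝ) :
    ‖(x : E5) + t • EuclideanSpace.basisFun (Fin 5) ℝ i‖ ^ 2 = 1 + 2 * t * (x : E5) i + t ^ 2 := by
  rw [norm_add_sq_real, S4_norm, norm_smul, inner_smul_right]
  have h1 : ‖EuclideanSpace.basisFun (Fin 5) ℝ i‖ = 1 :=
    (EuclideanSpace.basisFun (Fin 5) ℝ).orthonormal.1 i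
  have h2 : ⟪(x : E5), EuclideanSpace.basisFun (Fin 5) ℝ i⟫_ℝ = (x : E5) i :=
    inner_basis x i
  rw [h1, h2, mul_one, Real.norm_eq_abs, sq_abs]
  ring

theorem sum_sq (a : E5) : ∑ i : Fin 5, a i ^ 2 = ‖a‖ ^ 2 := by
  rw [EuclideanSpace.norm_sq_eq]
  simp [sq_abs]

theorem sum_mul (a b : E5) : ∑ i : Fin 5, a i * b i = ⟪a, b⟫_ℝ := by
  simp [PiLp.inner_apply, mul_comm]

/-- Second derivative at `0` of `t ↦ (s + t a)/√(1 + 2 t p + t²)`. -/
theorem line_calc (s a p : ℝ) :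
    (∀ᶠ t in 𝓝 (0 : ℝ), HasDerivAt (fun t : ℝ => (s + t * a) / √(1 + 2 * t * p + t ^ 2))
      (a / √(1 + 2 * t * p + t ^ 2) - (s + t * a) * (p + t) /
        ((1 + 2 * t * p + t ^ 2) * √(1 + 2 * t * p + t ^ 2))) t) ∧
    HasDerivAt (fun t : ℝ => a / √(1 + 2 * t * p + t ^ 2) - (s + t * a) * (p + t) /
        ((1 + 2 * t * p + t ^ 2) * √(1 + 2 * t * p + t ^ 2)))
      (-2 * a * p - s + 3 * s * p ^ 2) 0 := by
  have hr : ∀ t : ℝ, HasDerivAt (fun t : ℝ => 1 + 2 * t * p + t ^ 2) (2 * p + 2 * t) t := by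
    intro t
    have h1 : HasDerivAt (fun t : ℝ => 2 * t * p) (2 * p) t := by
      have := ((hasDerivAt_id t).const_mul (2 : ℝ)).mul_const p
      simpa using this
    have h2 : HasDerivAt (fun t : ℝ => t ^ 2) (2 * t) t := by
      simpa using hasDerivAt_pow 2 t
    exact (h1.const_add 1).fun_add h2
  have hpos : ∀ᶠ t in 𝓝 (0 : ℝ), 0 < 1 + 2 * t * p + t ^ 2 := by
    have hc : Continuous (fun t : ℝ => 1 + 2 * t * p + t ^ 2) := by fun_prop
    have : Tendsto (fun t : ℝ => 1 + 2 * t * p + t ^ 2) (𝓝 0) (𝓝 1) := by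
      have := hc.tendsto 0
      simpa using this
    exact this.eventually (lt_mem_nhds one_pos)
  have hsq : ∀ t : ℝ, 0 < 1 + 2 * t * p + t ^ 2 →
      HasDerivAt (fun t : ℝ => √(1 + 2 * t * p + t ^ 2)) ((p + t) / √(1 + 2 * t * p + t ^ 2)) t := by
    intro t ht
    refine ((hr t).sqrt ht.ne').congr_deriv ?_
    have hs := Real.sqrt_pos.2 ht
    field_simp
  have hnum : ∀ t : ℝ, HasDerivAt (fun t : ℝ => s + t * a) a t := by
    intro t
    have := ((hasDerivAt_id t).mul_const a).const_add s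
    simpa using this
  have hpt : ∀ t : ℝ, HasDerivAt (fun t : ℝ => p + t) 1 t := by
    intro t
    have := (hasDerivAt_id t).const_add p
    simpa using this
  constructor
  · filter_upwards [hpos] with t ht
    have hs := Real.sqrt_pos.2 ht
    have hs2 : √(1 + 2 * t * p + t ^ 2) ^ 2 = 1 + 2 * t * p + t ^ 2 := Real.sq_sqrt ht.le
    refine ((hnum t).fun_div (hsq t ht) hs.ne').congr_deriv ?_
    set r := √(1 + 2 * t * p + t ^ 2) with hrr
    rw [← hs2]
    field_simp
  · have h0 : (0 : ℝ) < 1 + 2 * 0 * p + 0 ^ 2 := by norm_num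
    have hs0 : √(1 + 2 * (0 : ℝ) * p + 0 ^ 2) = 1 := by norm_num
    have h1 := (hasDerivAt_const (0 : ℝ) a).fun_div (hsq 0 h0) (by rw [hs0]; norm_num)
    have h2 := ((hnum 0).fun_mul (hpt 0)).fun_div ((hr 0).fun_mul (hsq 0 h0))
      (by rw [hs0]; norm_num)
    refine (h1.fun_sub h2).congr_deriv ?_
    simp only [hs0]
    norm_num
    ring

/-- **Laplacian of a zonal function**. -/
theorem sphLaplacian_zonal (a : E5) (U : Set ℝ) (hUo : IsOpen U) (hU : ∀ x : S4, ⟪a, (x : E5)⟫_ℝ ∈ U)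
    (F F1 F2 : ℝ → ℝ) (hF : ContDiffOn ℝ ∞ F U) (h1 : ∀ y ∈ U, HasDerivAt F (F1 y) y)
    (h2 : ∀ y ∈ U, HasDerivAt F1 (F2 y) y) :
    Sm (fun x : S4 => F ⟪a, (x : E5)⟫_ℝ) ∧
    sphLaplacian (fun x : S4 => F ⟪a, (x : E5)⟫_ℝ) = fun x : S4 =>
      (‖a‖ ^ 2 - ⟪a, (x : E5)⟫_ℝ ^ 2) * F2 ⟪a, (x : E5)⟫_ℝ
        - 4 * ⟪a, (x : E5)⟫_ℝ * F1 ⟪a, (x : E5)⟫_ℝ := by
  have hsm : Sm (fun x : S4 => F ⟪a, (x : E5)⟫_ℝ) := by
    apply sm_of_restrict (fun y => F ⟪a, y⟫_ℝ)
    intro x
    have hFx : ContDiffAt ℝ ∞ F ⟪a, (x : E5)⟫_ℝ := hF.contDiffAt (hUo.mem_nhds (hU x))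
    have hin : ContDiffAt ℝ ∞ (fun y : E5 => ⟪a, y⟫_ℝ) (x : E5) :=
      (contDiff_const.inner ℝ contDiff_id).contDiffAt
    exact hFx.comp (x : E5) hin
  refine ⟨hsm, ?_⟩
  funext x
  unfold sphLaplacian
  rw [laplacian_eq_sum]
  set s := ⟪a, (x : E5)⟫_ℝ with hs
  have hterm : ∀ i : Fin 5, iteratedFDeriv ℝ 2 (radialExt fun x : S4 => F ⟪a, (x : E5)⟫_ℝ) x
      ![EuclideanSpace.basisFun (Fin 5) ℝ i, EuclideanSpace.basisFun (Fin 5) ℝ i] =
      F2 s * (a i - s * (x : E5) i) ^ 2 +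
        F1 s * (-2 * (a i) * (x : E5) i - s + 3 * s * ((x : E5) i) ^ 2) := by
    intro i
    obtain ⟨hh1, hh2⟩ := line_calc s (a i) ((x : E5) i)
    set r : ℝ → ℝ := fun t => 1 + 2 * t * (x : E5) i + t ^ 2 with hr
    set h : ℝ → ℝ := fun t => (s + t * a i) / √(1 + 2 * t * (x : E5) i + t ^ 2) with hh
    set k : ℝ → ℝ := fun t => a i / √(1 + 2 * t * (x : E5) i + t ^ 2) -
        (s + t * a i) * ((x : E5) i + t) / ((1 + 2 * t * (x : E5) i + t ^ 2) *
          √(1 + 2 * t * (x : E5) i + t ^ 2)) with hk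
    have hh0 : h 0 = s := by simp [hh]
    have hk0 : k 0 = a i - s * (x : E5) i := by simp [hk]
    have hhc : ContinuousAt h 0 := (hh1.self_of_nhds).continuousAt
    have hUev : ∀ᶠ t in 𝓝 (0 : ℝ), h t ∈ U := by
      apply hhc.eventually_mem
      rw [hh0]
      exact hUo.mem_nhds (hU x)
    have hne : ∀ᶠ t in 𝓝 (0 : ℝ), (x : E5) + t • EuclideanSpace.basisFun (Fin 5) ℝ i ≠ 0 :=
      (tendsto_line (x : E5) _).eventually (eventually_ne_zero (S4_ne_zero x))
    have heq : ∀ t : ℝ, (x : E5) + t • EuclideanSpace.basisFun (Fin 5) ℝ i ≠ 0 →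
        radialExt (fun x : S4 => F ⟪a, (x : E5)⟫_ℝ)
          ((x : E5) + t • EuclideanSpace.basisFun (Fin 5) ℝ i) = F (h t) := by
      intro t ht
      rw [radialExt_apply _ ht]
      congr 1
      show ⟪a, ‖(x : E5) + t • EuclideanSpace.basisFun (Fin 5) ℝ i‖⁻¹ •
        ((x : E5) + t • EuclideanSpace.basisFun (Fin 5) ℝ i)⟫_ℝ = h t
      have hn : ‖(x : E5) + t • EuclideanSpace.basisFun (Fin 5) ℝ i‖ =
          √(1 + 2 * t * (x : E5) i + t ^ 2) := by
        rw [← norm_sq_line x i t, Real.sqrt_sq (norm_nonneg _)]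
      rw [inner_smul_right, inner_add_right, inner_smul_right, inner_basis, hn, ← hs, hh]
      simp only []
      rw [div_eq_inv_mul]
    apply iteratedFDeriv_two_line ((hsm x (S4_ne_zero x)).of_le two_le_infty)
      (φ1 := fun t => F1 (h t) * k t)
    · filter_upwards [hUev, hh1, hne, hne.eventually_nhds] with t ht1 ht2 ht3 ht4
      have hcomp : HasDerivAt (fun t => F (h t)) (F1 (h t) * k t) t := (h1 _ ht1).comp t ht2
      refine hcomp.congr_of_eventuallyEq ?_
      filter_upwards [ht4] with t' ht'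
      exact heq t' ht'
    · have hc1 : HasDerivAt (fun t => F1 (h t)) (F2 s * k 0) 0 := by
        have h2' : HasDerivAt F1 (F2 s) (h 0) := by rw [hh0]; exact h2 s (hU x)
        exact h2'.comp 0 (hh1.self_of_nhds)
      refine (hc1.fun_mul hh2).congr_deriv ?_
      rw [hk0, hh0]
      ring
  rw [Finset.sum_congr rfl (fun i _ => hterm i)]
  have e1 : ∑ i : Fin 5, (a i) ^ 2 = ‖a‖ ^ 2 := sum_sq a
  have e2 : ∑ i : Fin 5, (x : E5) i ^ 2 = 1 := by rw [sum_sq, S4_norm]; norm_num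
  have e3 : ∑ i : Fin 5, a i * (x : E5) i = s := sum_mul a x
  have e4 : ∀ i : Fin 5, F2 s * (a i - s * (x : E5) i) ^ 2 +
        F1 s * (-2 * (a i) * (x : E5) i - s + 3 * s * ((x : E5) i) ^ 2) =
        F2 s * (a i ^ 2) + (-2 * F2 s * s - 2 * F1 s) * (a i * (x : E5) i) +
        (F2 s * s ^ 2 + 3 * F1 s * s) * ((x : E5) i ^ 2) - F1 s * s := by
    intro i; ring
  rw [Finset.sum_congr rfl (fun i _ => e4 i), Finset.sum_sub_distrib, Finset.sum_add_distrib,
    Finset.sum_add_distrib, ← Finset.mul_sum, ← Finset.mul_sum, ← Finset.mul_sum, e1, e2, e3]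
  simp only [Finset.sum_const, Finset.card_univ, Fintype.card_fin]
  ring

end Pool.Agent.Helper42_Paneitz
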