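import Mathlib
import Pool.Agent.Helper42_Paneitz.Zonal

set_option autoImplicit false

namespace Pool.Agent.Helper42_Paneitz

open scoped Manifold ContDiff InnerProductSpace Topology
open Filter

theorem fact_E5 : Fact (Module.finrank ℝ E5 = 4 + 1) := ⟨finrank_euclideanSpace_fin⟩

theorem contMDiff_coe_S4 : ContMDiff (𝓡 4) 𝓘(ℝ, E5) ∞ ((↑) : S4 → E5) := by
  have := fact_E5
  exact contMDiff_coe_sphere (E := E5) (n := 4)

theorem contMDiff_of_sm {u : S4 → ℝ} (hu : Sm u) : ContMDiff (𝓡 4) 𝓘(ℝ, ℝ) ∞ u := by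
  intro x
  have h1 : ContMDiffAt 𝓘(ℝ, E5) 𝓘(ℝ, ℝ) ∞ (radialExt u) (x : E5) :=
    (hu x (S4_ne_zero x)).contMDiffAt
  have h2 : ContMDiffAt (𝓡 4) 𝓘(ℝ, E5) ∞ ((↑) : S4 → E5) x :=
    contMDiff_coe_S4.contMDiffAt
  have h3 := h1.comp x h2
  have h4 : radialExt u ∘ ((↑) : S4 → E5) = u := by
    funext z; exact radialExt_coe u z
  rw [h4] at h3
  exact h3

theorem sm_of_contMDiff {u : S4 → ℝ} (hu : ContMDiff (𝓡 4) 𝓘(ℝ, ℝ) ∞ u) : Sm u := by
  intro y hy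
  let U : TopologicalSpace.Opens E5 := ⟨{0}ᶜ, isOpen_compl_singleton⟩
  have hU : ∀ z : U, (z : E5) ≠ 0 := fun z => z.2
  have hf : ContMDiff 𝓘(ℝ, E5) 𝓘(ℝ, E5) ∞ (fun z : U => ‖(z : E5)‖⁻¹ • (z : E5)) := by
    intro z
    have h1 : ContMDiffAt 𝓘(ℝ, E5) 𝓘(ℝ, E5) ∞ (fun z : E5 => ‖z‖⁻¹ • z) (z : E5) :=
      (contDiffAt_normalize (hU z)).contMDiffAt
    exact contMDiffAt_subtype_iff.2 h1
  have := fact_E5
  have hg := hf.codRestrict_sphere (n := 4) (fun z => normalize_mem (hU z))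
  have hc := hu.comp hg
  have heq : (u ∘ Set.codRestrict (fun z : U => ‖(z : E5)‖⁻¹ • (z : E5)) _
      (fun z => normalize_mem (hU z))) = fun z : U => radialExt u (z : E5) := by
    funext z
    rw [radialExt_apply u (hU z)]
    rfl
  rw [heq] at hc
  have h5 := (contMDiffAt_subtype_iff (U := U) (f := radialExt u) (x := ⟨y, hy⟩)).1
    (hc.contMDiffAt)
  exact h5.contDiffAt

end Pool.Agent.Helper42_Paneitz
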