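import Mathlib
import Pool.Agent.Helper42_Paneitz.Smooth

set_option autoImplicit false

namespace Pool.Agent.Helper42_Paneitz

open scoped Manifold ContDiff InnerProductSpace Topology
open Filter

/-- the function `x ↦ ⟨a,x⟩^k` on the sphere -/
noncomputable def mono (a : E5) (k : ℕ) : S4 → ℝ := fun x => ⟪a, (x : E5)⟫_ℝ ^ k

theorem mono_facts (a : E5) (k : ℕ) : Sm (mono a k) ∧
    sphLaplacian (mono a k) = fun x : S4 =>
      (‖a‖ ^ 2 * (k * (k - 1))) * mono a (k - 2) x + (-(k * (k + 3) : ℝ)) * mono a k x := by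
  have h := sphLaplacian_zonal a Set.univ isOpen_univ (fun _ => Set.mem_univ _)
    (fun y => y ^ k) (fun y => (k : ℝ) * y ^ (k - 1))
    (fun y => (k : ℝ) * (((k - 1 : ℕ) : ℝ) * y ^ (k - 1 - 1)))
    (contDiff_id.pow k).contDiffOn (fun y _ => hasDerivAt_pow k y)
    (fun y _ => (hasDerivAt_pow (k - 1) y).const_mul _)
  refine ⟨h.1, ?_⟩
  have h2 := h.2
  unfold mono
  rw [h2]
  funext x
  set s := ⟪a, (x : E5)⟫_ℝ
  rcases k with _ | k
  · simp
  rcases k with _ | k
  · simp
    ring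
  simp only [Nat.add_sub_cancel]
  push_cast
  ring

theorem sm_mono (a : E5) (k : ℕ) : Sm (mono a k) := (mono_facts a k).1

theorem paneitz_mono (a : E5) (k : ℕ) (x : S4) :
    paneitz (mono a k) x =
      (k * (k + 1) * (k + 2) * (k + 3) : ℝ) * mono a k x
      + (‖a‖ ^ 2 * (k * (k - 1)) *
          (-((((k - 2 : ℕ) : ℝ)) * (((k - 2 : ℕ) : ℝ) + 3) + k * (k + 3) + 2))) * mono a (k - 2) x
      + (‖a‖ ^ 2 * (k * (k - 1)) *
          (‖a‖ ^ 2 * (((k - 2 : ℕ) : ℝ) * (((k - 2 : ℕ) : ℝ) - 1)))) * mono a (k - 2 - 2) x := by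
  unfold paneitz
  rw [(mono_facts a k).2]
  rw [sphLaplacian_add ((sm_mono a (k - 2)).smul _) ((sm_mono a k).smul _),
    sphLaplacian_smul _ (sm_mono a (k - 2)), sphLaplacian_smul _ (sm_mono a k),
    (mono_facts a k).2, (mono_facts a (k - 2)).2]
  ring

/-- The range of the Paneitz operator plus the constants, inside `C(S^4)`. -/
noncomputable def ranP : Submodule ℝ C(S4, ℝ) where
  carrier := {f | ∃ W : S4 → ℝ, Sm W ∧ ∃ c : ℝ, ∀ x, paneitz W x + c = f x}
  add_mem' := by
    rintro f g ⟨W, hW, c, h⟩ ⟨W', hW', c', h'⟩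
    refine ⟨fun x => W x + W' x, hW.add hW', c + c', fun x => ?_⟩
    rw [paneitz_add hW hW', ContinuousMap.add_apply, ← h x, ← h' x]
    ring
  zero_mem' := by
    refine ⟨fun _ => 0, sm_const 0, 0, fun x => ?_⟩
    rw [paneitz_const]
    simp
  smul_mem' := by
    rintro r f ⟨W, hW, c, h⟩
    refine ⟨fun x => r * W x, hW.smul r, r * c, fun x => ?_⟩
    rw [paneitz_smul r hW, ContinuousMap.smul_apply, ← h x, smul_eq_mul]
    ring

theorem mem_ranP {f : C(S4, ℝ)} :
    f ∈ ranP ↔ ∃ W : S4 → ℝ, Sm W ∧ ∃ c : ℝ, ∀ x, paneitz W x + c = f x := Iff.rfl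

/-- the linear function `⟨a, ·⟩` as an element of `C(S^4)` -/
noncomputable def linC (a : E5) : C(S4, ℝ) :=
  ⟨fun x => ⟪a, (x : E5)⟫_ℝ, continuous_const.inner continuous_subtype_val⟩

theorem linC_pow_apply (a : E5) (k : ℕ) (x : S4) : (linC a ^ k) x = mono a k x := by
  rw [ContinuousMap.pow_apply]; rfl

theorem linC_pow_mem (a : E5) : ∀ k : ℕ, linC a ^ k ∈ ranP := by
  intro k
  induction k using Nat.strong_induction_on with
  | _ k ih =>
    rcases Nat.eq_zero_or_pos k with rfl | hk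
    · refine ⟨fun _ => 0, sm_const 0, 1, fun x => ?_⟩
      rw [paneitz_const]
      simp
    · have h1 : linC a ^ (k - 2) ∈ ranP := ih _ (by omega)
      have h2 : linC a ^ (k - 2 - 2) ∈ ranP := ih _ (by omega)
      set β : ℝ := ‖a‖ ^ 2 * (k * (k - 1)) *
          (-((((k - 2 : ℕ) : ℝ)) * (((k - 2 : ℕ) : ℝ) + 3) + k * (k + 3) + 2)) with hβ
      set γ : ℝ := ‖a‖ ^ 2 * (k * (k - 1)) *
          (‖a‖ ^ 2 * (((k - 2 : ℕ) : ℝ) * (((k - 2 : ℕ) : ℝ) - 1))) with hγ
      set α : ℝ := (k * (k + 1) * (k + 2) * (k + 3) : ℝ) with hα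
      have hα0 : α ≠ 0 := by
        have : (0 : ℝ) < k := by exact_mod_cast hk
        positivity
      have h3 : α • linC a ^ k + β • linC a ^ (k - 2) + γ • linC a ^ (k - 2 - 2) ∈ ranP := by
        refine ⟨mono a k, sm_mono a k, 0, fun x => ?_⟩
        rw [paneitz_mono, ContinuousMap.add_apply, ContinuousMap.add_apply,
          ContinuousMap.smul_apply, ContinuousMap.smul_apply, ContinuousMap.smul_apply,
          linC_pow_apply, linC_pow_apply, linC_pow_apply]
        simp only [smul_eq_mul, add_zero, hα, hβ, hγ]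
      have h4 : linC a ^ k = α⁻¹ • ((α • linC a ^ k + β • linC a ^ (k - 2) +
          γ • linC a ^ (k - 2 - 2)) - β • linC a ^ (k - 2) - γ • linC a ^ (k - 2 - 2)) := by
        rw [show (α • linC a ^ k + β • linC a ^ (k - 2) +
          γ • linC a ^ (k - 2 - 2)) - β • linC a ^ (k - 2) - γ • linC a ^ (k - 2 - 2) =
            α • linC a ^ k by abel, smul_smul, inv_mul_cancel₀ hα0, one_smul]
      rw [h4]
      exact ranP.smul_mem _ (ranP.sub_mem (ranP.sub_mem h3 (ranP.smul_mem _ h1))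
        (ranP.smul_mem _ h2))

/-- `x ↦ exp⟨a,x⟩` as an element of `C(S^4)` -/
noncomputable def expC (a : E5) : C(S4, ℝ) :=
  ⟨fun x => Real.exp ⟪a, (x : E5)⟫_ℝ,
    Real.continuous_exp.comp (continuous_const.inner continuous_subtype_val)⟩

theorem expC_eq (a : E5) : expC a = NormedSpace.exp (linC a) := by
  ext x
  have h := NormedSpace.exp_series_hasSum_exp' (𝕂 := ℝ) (linC a)
  have h2 : HasSum (fun n : ℕ => (((n.factorial : ℝ)⁻¹) • linC a ^ n) x)
      ((NormedSpace.exp (linC a)) x) := by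
    exact ContinuousMap.hasSum_apply h x
  have h3 := NormedSpace.exp_series_hasSum_exp' (𝕂 := ℝ) (⟪a, (x : E5)⟫_ℝ)
  have h4 : (fun n : ℕ => (((n.factorial : ℝ)⁻¹) • linC a ^ n) x) =
      fun n : ℕ => ((n.factorial : ℝ)⁻¹) • (⟪a, (x : E5)⟫_ℝ) ^ n := by
    funext n
    rw [ContinuousMap.smul_apply, linC_pow_apply]
    rfl
  rw [h4] at h2
  have h5 := h2.unique h3
  rw [h5, ← Real.exp_eq_exp_ℝ]
  rfl

theorem expC_mem (a : E5) : expC a ∈ ranP.topologicalClosure := by
  rw [expC_eq]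
  have h := NormedSpace.exp_series_hasSum_exp' (𝕂 := ℝ) (linC a)
  have hcl : IsClosed (ranP.topologicalClosure : Set C(S4, ℝ)) :=
    ranP.isClosed_topologicalClosure
  refine hcl.mem_of_tendsto h (Eventually.of_forall fun s => ?_)
  apply Submodule.sum_mem
  intro n _
  apply Submodule.smul_mem
  exact ranP.le_topologicalClosure (linC_pow_mem a n)

/-- The exponentials form a submonoid. -/
noncomputable def expMonoid : Submonoid C(S4, ℝ) where
  carrier := Set.range expC
  mul_mem' := by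
    rintro f g ⟨a, rfl⟩ ⟨b, rfl⟩
    refine ⟨a + b, ?_⟩
    ext x
    show Real.exp ⟪a + b, (x : E5)⟫_ℝ = Real.exp ⟪a, (x : E5)⟫_ℝ * Real.exp ⟪b, (x : E5)⟫_ℝ
    rw [inner_add_left, Real.exp_add]
  one_mem' := by
    refine ⟨0, ?_⟩
    ext x
    show Real.exp ⟪(0 : E5), (x : E5)⟫_ℝ = 1
    rw [inner_zero_left, Real.exp_zero]

/-- **Density lemma**: every continuous function on the sphere is a uniform limit of functions
`P₄ W + c` with `W` smooth and `c` constant. -/
theorem ranP_dense : ranP.topologicalClosure = ⊤ := by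
  set A := Algebra.adjoin ℝ (Set.range expC) with hA
  have hsep : A.SeparatesPoints := by
    intro x y hxy
    refine ⟨fun z => Real.exp ⟪(x : E5) - y, (z : E5)⟫_ℝ, ⟨expC ((x : E5) - y), ?_, rfl⟩, ?_⟩
    · exact Algebra.subset_adjoin ⟨_, rfl⟩
    · intro h
      have h1 : ⟪(x : E5) - y, (x : E5)⟫_ℝ = ⟪(x : E5) - y, (y : E5)⟫_ℝ := Real.exp_injective h
      have h2 : ⟪(x : E5) - y, (x : E5) - y⟫_ℝ = 0 := by
        rw [inner_sub_right, h1, sub_self]
      rw [inner_self_eq_zero, sub_eq_zero] at h2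
      exact hxy (Subtype.ext h2)
  have htop := ContinuousMap.subalgebra_topologicalClosure_eq_top_of_separatesPoints A hsep
  have hle : Subalgebra.toSubmodule A ≤ ranP.topologicalClosure := by
    rw [hA, Algebra.adjoin_eq_span_of_subset]
    · rw [Submodule.span_le]
      rintro f ⟨a, rfl⟩
      exact expC_mem a
    · have h1 : Submonoid.closure (Set.range expC) ≤ expMonoid := by
        rw [Submonoid.closure_le]
        exact fun f hf => hf
      exact fun f hf => Submodule.subset_span (h1 hf)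
  rw [eq_top_iff]
  intro f _
  have hf : f ∈ A.topologicalClosure := by rw [htop]; exact Algebra.mem_top
  have hf2 : f ∈ closure (A : Set C(S4, ℝ)) := hf
  have hcl : IsClosed (ranP.topologicalClosure : Set C(S4, ℝ)) :=
    ranP.isClosed_topologicalClosure
  exact closure_minimal (fun g hg => hle hg) hcl hf2

end Pool.Agent.Helper42_Paneitz
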