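import Mathlib
import Pool.Agent.Helper42_Paneitz.Density

set_option autoImplicit false

namespace Pool.Agent.Helper42_Paneitz

open scoped Manifold ContDiff InnerProductSpace Topology
open Filter

/-- `x ↦ -log(1 - ⟨a,x⟩)` -/
noncomputable def zlog (a : E5) : S4 → ℝ := fun x => -Real.log (1 - ⟪a, (x : E5)⟫_ℝ)

theorem abs_inner_le (a : E5) (x : S4) : |⟪a, (x : E5)⟫_ℝ| ≤ ‖a‖ := by
  have := abs_real_inner_le_norm a (x : E5)
  rwa [S4_norm, mul_one] at this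

theorem zlog_facts (a : E5) (ha : ‖a‖ < 1) : Sm (zlog a) ∧ ∀ x : S4,
    paneitz (zlog a) x = 6 * ((1 - ‖a‖ ^ 2) ^ 2 / (1 - ⟪a, (x : E5)⟫_ℝ) ^ 4 - 1) := by
  have hU : ∀ x : S4, ⟪a, (x : E5)⟫_ℝ ∈ Set.Iio (1 : ℝ) := by
    intro x
    exact lt_of_le_of_lt ((le_abs_self _).trans (abs_inner_le a x)) ha
  have hpos : ∀ y ∈ Set.Iio (1 : ℝ), 1 - y ≠ 0 := by
    intro y hy
    have h1 : y < 1 := hy
    have h2 : 0 < 1 - y := by linarith
    exact h2.ne'
  have hsub : ∀ y : ℝ, HasDerivAt (fun y : ℝ => 1 - y) (-1) y := fun y => by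
    simpa using (hasDerivAt_id y).const_sub 1
  have hsubc : ContDiff ℝ ∞ (fun y : ℝ => 1 - y) := contDiff_const.sub contDiff_id
  have hinv : ∀ (n : ℕ), ∀ y ∈ Set.Iio (1 : ℝ),
      HasDerivAt (fun y : ℝ => 1 / (1 - y) ^ n) (n / (1 - y) ^ (n + 1)) y := by
    intro n y hy
    have h0 := hpos y hy
    rcases n with _ | n
    · simp only [pow_zero, div_one, Nat.cast_zero, zero_div]
      exact hasDerivAt_const _ _
    have h1 := ((hsub y).pow (n + 1)).fun_inv (pow_ne_zero _ h0)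
    have h2 : (fun y : ℝ => 1 / (1 - y) ^ (n + 1)) = fun y : ℝ => ((1 - y) ^ (n + 1))⁻¹ := by
      funext y; rw [one_div]
    rw [h2]
    refine h1.congr_deriv ?_
    simp only [Nat.add_sub_cancel, Pi.pow_apply]
    push_cast
    field_simp
    ring
  have hcinv : ∀ n : ℕ, ContDiffOn ℝ ∞ (fun y : ℝ => 1 / (1 - y) ^ n) (Set.Iio 1) := by
    intro n
    apply ContDiffOn.div contDiffOn_const (hsubc.pow n).contDiffOn
    intro y hy
    exact pow_ne_zero _ (hpos y hy)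
  obtain ⟨hs1, hl1⟩ := sphLaplacian_zonal a (Set.Iio 1) isOpen_Iio hU
    (fun y => -Real.log (1 - y)) (fun y => 1 / (1 - y) ^ 1) (fun y => (1 : ℕ) / (1 - y) ^ (1 + 1))
    (by
      apply ContDiffOn.neg
      exact hsubc.contDiffOn.log hpos)
    (by
      intro y hy
      refine ((hsub y).log (hpos y hy)).neg.congr_deriv ?_
      have := hpos y hy
      field_simp)
    (hinv 1)
  refine ⟨hs1, ?_⟩
  set A := ‖a‖ ^ 2 with hA
  have hl1' : sphLaplacian (zlog a) = fun x : S4 =>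
      (A - 1) * (1 / (1 - ⟪a, (x : E5)⟫_ℝ) ^ 2) - 2 * (1 / (1 - ⟪a, (x : E5)⟫_ℝ) ^ 1) + 3 := by
    unfold zlog
    rw [hl1]
    funext x
    have h0 := hpos _ (hU x)
    set s := ⟪a, (x : E5)⟫_ℝ
    push_cast
    field_simp
    ring
  obtain ⟨hs2, hl2⟩ := sphLaplacian_zonal a (Set.Iio 1) isOpen_Iio hU
    (fun y => (A - 1) * (1 / (1 - y) ^ 2) - 2 * (1 / (1 - y) ^ 1) + 3)
    (fun y => (A - 1) * (2 * (1 / (1 - y) ^ 3)) - 2 * (1 / (1 - y) ^ 2))
    (fun y => (A - 1) * (2 * ((3 : ℕ) / (1 - y) ^ (3 + 1))) - 2 * ((2 : ℕ) / (1 - y) ^ (2 + 1)))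
    (by
      exact ((contDiffOn_const.mul (hcinv 2)).sub (contDiffOn_const.mul (hcinv 1))).add
        contDiffOn_const)
    (by
      intro y hy
      refine ((((hinv 2 y hy).const_mul (A - 1)).sub ((hinv 1 y hy).const_mul 2)).add_const
        3).congr_deriv ?_
      have := hpos y hy
      push_cast
      field_simp)
    (by
      intro y hy
      exact (((hinv 3 y hy).const_mul 2).const_mul (A - 1)).sub ((hinv 2 y hy).const_mul 2))
  intro x
  unfold paneitz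
  rw [hl1', hl2]
  have h0 := hpos _ (hU x)
  simp only [← hA]
  set s := ⟪a, (x : E5)⟫_ℝ
  push_cast
  field_simp
  ring

theorem sm_zlog (a : E5) (ha : ‖a‖ < 1) : Sm (zlog a) := (zlog_facts a ha).1

theorem continuous_of_sm {u : S4 → ℝ} (hu : Sm u) : Continuous u :=
  (contMDiff_of_sm hu).continuous

/-- bound on the bubble -/
theorem bubble_bound (N x : S4) (θ : ℝ) (h0 : 0 < θ) (h1 : θ < 1) :
    |(1 / 2) * Real.log (1 - (1 - θ) ^ 2) - Real.log (1 - ⟪(1 - θ) • (N : E5), (x : E5)⟫_ℝ)|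
      ≤ 2 * |Real.log θ| + 1 := by
  have hs := abs_le.1 (abs_inner_le (N : E5) x)
  rw [S4_norm] at hs
  rw [inner_smul_left]
  simp only [conj_trivial]
  set s := ⟪(N : E5), (x : E5)⟫_ℝ
  have hlogθ : Real.log θ < 0 := Real.log_neg h0 h1
  have e1 : |Real.log (1 - (1 - θ) ^ 2)| ≤ |Real.log θ| := by
    have h2 : θ ≤ 1 - (1 - θ) ^ 2 := by nlinarith
    have h3 : 1 - (1 - θ) ^ 2 ≤ 1 := by nlinarith
    have h4 := Real.log_le_log h0 h2
    have h5 : Real.log (1 - (1 - θ) ^ 2) ≤ 0 := Real.log_nonpos (by linarith) h3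
    rw [abs_of_nonpos h5, abs_of_neg hlogθ]
    linarith
  have e2 : |Real.log (1 - (1 - θ) * s)| ≤ |Real.log θ| + 1 := by
    have h2 : θ ≤ 1 - (1 - θ) * s := by nlinarith
    have h3 : 1 - (1 - θ) * s ≤ 2 := by nlinarith
    have h4 := Real.log_le_log h0 h2
    have h5 : Real.log (1 - (1 - θ) * s) ≤ Real.log 2 := Real.log_le_log (by linarith) h3
    have h6 : Real.log 2 < 1 := by
      have := Real.log_two_lt_d9
      linarith
    rw [abs_le]
    constructor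
    · rw [abs_of_neg hlogθ]; linarith
    · have := abs_nonneg (Real.log θ); linarith
  have e3 := abs_sub ((1 / 2) * Real.log (1 - (1 - θ) ^ 2)) (Real.log (1 - (1 - θ) * s))
  rw [abs_mul, abs_of_pos (by norm_num : (0 : ℝ) < 1 / 2)] at e3
  have := abs_nonneg (Real.log θ)
  linarith

theorem pow4_diff (p q : ℝ) (hp : |p| ≤ 2) (hq : |q| ≤ 2) : |p ^ 4 - q ^ 4| ≤ 32 * |p - q| := by
  have h : p ^ 4 - q ^ 4 = (p ^ 3 + p ^ 2 * q + p * q ^ 2 + q ^ 3) * (p - q) := by ring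
  rw [h, abs_mul]
  apply mul_le_mul_of_nonneg_right _ (abs_nonneg _)
  have h3 : ∀ a b c : ℝ, |a| ≤ 2 → |b| ≤ 2 → |c| ≤ 2 → |a * b * c| ≤ 8 := by
    intro a b c ha hb hc
    rw [abs_mul, abs_mul]
    have h1 : |a| * |b| ≤ 2 * 2 := mul_le_mul ha hb (abs_nonneg _) (by norm_num)
    have h2 : |a| * |b| * |c| ≤ 2 * 2 * 2 := mul_le_mul h1 hc (abs_nonneg _) (by norm_num)
    linarith
  have t1 := h3 p p p hp hp hp
  have t2 := h3 p p q hp hp hq
  have t3 := h3 p q q hp hq hq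
  have t4 := h3 q q q hq hq hq
  calc |p ^ 3 + p ^ 2 * q + p * q ^ 2 + q ^ 3|
      = |p * p * p + p * p * q + p * q * q + q * q * q| := by ring_nf
    _ ≤ |p * p * p| + |p * p * q| + |p * q * q| + |q * q * q| := by
        refine (abs_add_le _ _).trans ?_
        have := (abs_add_le (p * p * p + p * p * q) (p * q * q))
        have := (abs_add_le (p * p * p) (p * p * q))
        linarith
    _ ≤ 32 := by linarith

theorem z_bounds (θ s : ℝ) (h0 : 0 < θ) (h1 : θ < 1) (hs : -1 ≤ s) (hs1 : s ≤ 1) :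
    0 < 1 - (1 - θ) * s ∧ 1 - (1 - θ) * s ≤ 2 := by
  constructor <;> nlinarith

theorem delta_bounds (θ : ℝ) (h0 : 0 < θ) (h1 : θ < 1) :
    0 < 1 - (1 - θ) ^ 2 ∧ 1 - (1 - θ) ^ 2 ≤ 2 * θ ∧ θ ^ 2 ≤ θ := by
  refine ⟨?_, ?_, ?_⟩ <;> nlinarith

theorem kappa_bound (δ θ c : ℝ) (hδ : δ ≤ 4 * θ ^ 2) (hc : 0 ≤ c) (h : 0 ≤ θ ^ 2 * c) :
    δ * c ≤ θ ^ 2 * c * 6 := by
  have := mul_le_mul_of_nonneg_right hδ hc
  linarith

/-- **Approximation theorem**: a continuous function on `S^4` equal to `6` near a point is a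
uniform limit of `Q`-curvatures of metrics conformal to the round metric. -/
theorem approx (R : C(S4, ℝ)) (N : S4) (hR : ∀ᶠ x in 𝓝 N, R x = 0) (η : ℝ) (hη : 0 < η) :
    ∃ u : S4 → ℝ, Sm u ∧
      ∀ x : S4, |Real.exp (-(4 * u x)) * (paneitz u x + 6) - (6 + R x)| < η := by
  -- the function F = R / (1 - s)^4
  have hlt : ∀ x : S4, x ≠ N → ⟪(N : E5), (x : E5)⟫_ℝ < 1 := by
    intro x hx
    rw [inner_lt_one_iff_real_of_norm_eq_one (S4_norm N) (S4_norm x)]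
    exact fun h => hx (Subtype.ext h.symm)
  have hcF : Continuous fun x : S4 => R x / (1 - ⟪(N : E5), (x : E5)⟫_ℝ) ^ 4 := by
    rw [continuous_iff_continuousAt]
    intro x
    by_cases hx : x = N
    · subst hx
      have : (fun y : S4 => R y / (1 - ⟪(x : E5), (y : E5)⟫_ℝ) ^ 4) =ᶠ[𝓝 x] fun _ => 0 := by
        filter_upwards [hR] with y hy
        rw [hy, zero_div]
      exact continuousAt_const.congr this.symm
    · apply ContinuousAt.div R.continuous.continuousAt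
      · exact ((continuous_const.sub (continuous_const.inner continuous_subtype_val)).pow
          4).continuousAt
      · have := hlt x hx
        exact pow_ne_zero _ (by linarith [this] : (1 - ⟪(N : E5), (x : E5)⟫_ℝ) ≠ 0)
  set F : C(S4, ℝ) := ⟨_, hcF⟩ with hF
  have hFR : ∀ x : S4, (1 - ⟪(N : E5), (x : E5)⟫_ℝ) ^ 4 * F x = R x := by
    intro x
    show (1 - ⟪(N : E5), (x : E5)⟫_ℝ) ^ 4 * (R x / (1 - ⟪(N : E5), (x : E5)⟫_ℝ) ^ 4) = R x
    by_cases hx : x = N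
    · subst hx
      have h0 : R x = 0 := hR.self_of_nhds
      rw [h0]; simp
    · have := hlt x hx
      have h1 : (1 - ⟪(N : E5), (x : E5)⟫_ℝ) ≠ 0 := by linarith
      field_simp
  -- approximate F by P W + c
  have hFcl : F ∈ closure (ranP : Set C(S4, ℝ)) := by
    have h1 : F ∈ ranP.topologicalClosure := by rw [ranP_dense]; exact Submodule.mem_top
    exact h1
  obtain ⟨f, ⟨W, hW, c, hWc⟩, hfF⟩ := Metric.mem_closure_iff.1 hFcl (η / 32) (by positivity)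
  have hfF' : ∀ x, |f x - F x| < η / 32 := by
    intro x
    have := (ContinuousMap.dist_lt_iff (by positivity)).1 hfF x
    rw [Real.dist_eq, abs_sub_comm] at this
    exact this
  obtain ⟨MW, hMW⟩ : ∃ M : ℝ, ∀ x, |W x| ≤ M := by
    have hcW := continuous_of_sm hW
    refine ⟨‖(⟨W, hcW⟩ : C(S4, ℝ))‖, fun x => ?_⟩
    exact ContinuousMap.norm_coe_le_norm (⟨W, hcW⟩ : C(S4, ℝ)) x
  have hMW0 : 0 ≤ MW := (abs_nonneg _).trans (hMW N)
  have hf0 : ∀ x, |f x| ≤ ‖f‖ := fun x => ContinuousMap.norm_coe_le_norm f x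
  have hfn : 0 ≤ ‖f‖ := norm_nonneg f
  -- constants
  set K1 : ℝ := 12 * |c| + 16 * MW with hK1
  set K2 : ℝ := 2 * K1 * (6 * (1 + |c|) + 16 * ‖f‖) + 6 * |c| + 32 * ‖f‖ with hK2
  have hc0 : 0 ≤ |c| := abs_nonneg c
  have hK1n : 0 ≤ K1 := by positivity
  have hK2n : 0 ≤ K2 := by positivity
  obtain ⟨θ, hθ0, hθ1, hθK1, hθK2⟩ : ∃ θ : ℝ, 0 < θ ∧ θ < 1 ∧ θ * K1 ≤ 1 ∧ θ * K2 < η / 2 := by
    refine ⟨min (1 / 2) (min (1 / (K1 + 1)) (η / (4 * (K2 + 1)))), by positivity, ?_, ?_, ?_⟩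
    · exact lt_of_le_of_lt (min_le_left _ _) (by norm_num)
    · have h1 : min (1 / 2) (min (1 / (K1 + 1)) (η / (4 * (K2 + 1)))) ≤ 1 / (K1 + 1) :=
        (min_le_right _ _).trans (min_le_left _ _)
      calc _ ≤ 1 / (K1 + 1) * K1 := mul_le_mul_of_nonneg_right h1 hK1n
        _ ≤ 1 := by rw [one_div, inv_mul_le_iff₀ (by positivity)]; linarith
    · have h1 : min (1 / 2) (min (1 / (K1 + 1)) (η / (4 * (K2 + 1)))) ≤ η / (4 * (K2 + 1)) :=
        (min_le_right _ _).trans (min_le_right _ _)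
      calc _ ≤ η / (4 * (K2 + 1)) * K2 := mul_le_mul_of_nonneg_right h1 hK2n
        _ ≤ η / 4 := by
          rw [div_mul_eq_mul_div, div_le_div_iff₀ (by positivity) (by positivity)]
          have : 0 ≤ η * 4 := by positivity
          calc η * K2 * 4 = η * 4 * K2 := by ring
            _ ≤ η * 4 * (K2 + 1) := mul_le_mul_of_nonneg_left (by linarith) this
            _ = η * (4 * (K2 + 1)) := by ring
        _ < η / 2 := by linarith
  set a : E5 := (1 - θ) • (N : E5) with ha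
  have hna : ‖a‖ = 1 - θ := by
    rw [ha, norm_smul, S4_norm, mul_one, Real.norm_eq_abs, abs_of_pos (by linarith)]
  have ha1 : ‖a‖ < 1 := by rw [hna]; linarith
  set δ : ℝ := (1 - (1 - θ) ^ 2) ^ 2 with hδ
  set κ : ℝ := -(δ * c / 6) with hκ
  obtain ⟨hδ1, hδ2, hθ2⟩ := delta_bounds θ hθ0 hθ1
  have hδ0 : 0 < δ := by positivity
  have hδ4 : δ ≤ 4 * θ ^ 2 := by
    calc δ ≤ (2 * θ) ^ 2 := by rw [hδ]; exact pow_le_pow_left₀ hδ1.le hδ2 2
      _ = 4 * θ ^ 2 := by ring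
  have hκb : |κ| ≤ θ ^ 2 * |c| := by
    rw [hκ, abs_neg, abs_div, abs_mul, abs_of_pos hδ0, abs_of_pos (by norm_num : (0 : ℝ) < 6)]
    rw [div_le_iff₀ (by norm_num)]
    exact kappa_bound δ θ |c| hδ4 hc0 (by positivity)
  have hκ1 : |κ| ≤ θ * |c| := hκb.trans (mul_le_mul_of_nonneg_right hθ2 hc0)
  have hκ2 : |κ| ≤ |c| := hκ1.trans (mul_le_of_le_one_left hc0 hθ1.le)
  set ℓ : ℝ := (1 / 2) * Real.log (1 - (1 - θ) ^ 2) with hℓ
  -- the function u
  refine ⟨fun x => (1 + κ) * (ℓ + zlog a x) + δ * W x, ?_, ?_⟩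
  · exact (((sm_const ℓ).add (sm_zlog a ha1)).smul (1 + κ)).add (hW.smul δ)
  intro x
  have hP : paneitz (fun x => (1 + κ) * (ℓ + zlog a x) + δ * W x) x =
      (1 + κ) * (6 * (δ / (1 - ⟪a, (x : E5)⟫_ℝ) ^ 4 - 1)) + δ * paneitz W x := by
    rw [paneitz_add (((sm_const ℓ).add (sm_zlog a ha1)).smul (1 + κ)) (hW.smul δ),
      paneitz_smul _ ((sm_const ℓ).add (sm_zlog a ha1)), paneitz_smul _ hW,
      paneitz_add (sm_const ℓ) (sm_zlog a ha1), paneitz_const, (zlog_facts a ha1).2, hna, zero_add]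
  rw [hP]
  set s := ⟪(N : E5), (x : E5)⟫_ℝ with hs
  have has : ⟪a, (x : E5)⟫_ℝ = (1 - θ) * s := by
    rw [ha, inner_smul_left]; simp [hs]
  have hsb := abs_le.1 (abs_inner_le (N : E5) x)
  rw [S4_norm, ← hs] at hsb
  rw [has]
  set z : ℝ := 1 - (1 - θ) * s with hz
  obtain ⟨hz0, hz2'⟩ := z_bounds θ s hθ0 hθ1 hsb.1 hsb.2
  rw [← hz] at hz0 hz2'
  have hzb : zlog a x = -Real.log z := by
    show -Real.log (1 - ⟪a, (x : E5)⟫_ℝ) = _
    rw [has]
  -- exponential factor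
  have hexp : Real.exp (-(4 * ((1 + κ) * (ℓ + zlog a x) + δ * W x))) =
      Real.exp (-(4 * κ * (ℓ - Real.log z)) - 4 * δ * W x) * (z ^ 4 / δ) := by
    have h1 : z ^ 4 / δ = Real.exp (4 * Real.log z - 4 * ℓ) := by
      rw [Real.exp_sub]
      congr 1
      · rw [mul_comm, Real.exp_mul, Real.exp_log hz0]
        norm_cast
      · rw [hℓ, show 4 * ((1 / 2) * Real.log (1 - (1 - θ) ^ 2)) =
          Real.log (1 - (1 - θ) ^ 2) * 2 by ring, Real.exp_mul, Real.exp_log hδ1, hδ]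
        norm_cast
    rw [h1, ← Real.exp_add, hzb]
    congr 1
    ring
  have hWf : paneitz W x = f x - c := by rw [← hWc x]; ring
  rw [hexp, hWf]
  have hmain : Real.exp (-(4 * κ * (ℓ - Real.log z)) - 4 * δ * W x) * (z ^ 4 / δ) *
      ((1 + κ) * (6 * (δ / z ^ 4 - 1)) + δ * (f x - c) + 6) =
      Real.exp (-(4 * κ * (ℓ - Real.log z)) - 4 * δ * W x) * (6 * (1 + κ) + z ^ 4 * f x) := by
    have h6 : 6 * κ = -(δ * c) := by rw [hκ]; ring
    have hz4 : z ^ 4 ≠ 0 := pow_ne_zero _ hz0.ne'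
    have : (z ^ 4 / δ) * ((1 + κ) * (6 * (δ / z ^ 4 - 1)) + δ * (f x - c) + 6) =
        6 * (1 + κ) + z ^ 4 * f x + (z ^ 4 / δ) * (-(6 * κ) - δ * c) := by
      field_simp
      ring
    rw [mul_assoc, this, h6]
    ring
  rw [hmain]
  set A : ℝ := -(4 * κ * (ℓ - Real.log z)) - 4 * δ * W x with hA
  set B : ℝ := 6 * (1 + κ) + z ^ 4 * f x with hB
  -- bound on A
  have hbub := bubble_bound N x θ hθ0 hθ1
  rw [← ha, has, ← hz, ← hℓ] at hbub
  have hθlog : θ * |Real.log θ| ≤ 1 := by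
    have := Real.abs_log_mul_self_lt θ hθ0 hθ1.le
    rw [abs_mul, abs_of_pos hθ0] at this
    linarith [mul_comm θ |Real.log θ|]
  have hAb : |A| ≤ θ * K1 := by
    have h1 : |A| ≤ 4 * |κ| * |ℓ - Real.log z| + 4 * δ * |W x| := by
      rw [hA]
      refine (abs_sub _ _).trans ?_
      rw [abs_neg, abs_mul, abs_mul, abs_mul, abs_mul, abs_of_pos (by norm_num : (0 : ℝ) < 4),
        abs_of_pos hδ0]
    have h2 : 4 * |κ| * |ℓ - Real.log z| ≤ 4 * (θ ^ 2 * |c|) * (2 * |Real.log θ| + 1) := by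
      apply mul_le_mul _ hbub (abs_nonneg _) (by positivity)
      linarith
    have h3 : 4 * δ * |W x| ≤ 4 * (4 * θ ^ 2) * MW := by
      apply mul_le_mul _ (hMW x) (abs_nonneg _) (by positivity)
      linarith
    have h4 : 4 * (θ ^ 2 * |c|) * (2 * |Real.log θ| + 1) =
        4 * θ * |c| * (2 * (θ * |Real.log θ|) + θ) := by ring
    have h5 : 4 * θ * |c| * (2 * (θ * |Real.log θ|) + θ) ≤ 4 * θ * |c| * 3 := by
      apply mul_le_mul_of_nonneg_left _ (by positivity)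
      linarith
    have h6 : 4 * (4 * θ ^ 2) * MW ≤ 16 * θ * MW := by
      have := mul_le_mul_of_nonneg_right hθ2 hMW0
      linarith
    calc |A| ≤ 4 * θ * |c| * 3 + 16 * θ * MW := by linarith
      _ = θ * K1 := by rw [hK1]; ring
  have hA1 : |A| ≤ 1 := hAb.trans hθK1
  have hexpA : |Real.exp A - 1| ≤ 2 * |A| := Real.abs_exp_sub_one_le hA1
  have hz2 : |z| ≤ 2 := by
    rw [abs_of_pos hz0]; exact hz2'
  have hz4 : |z ^ 4| ≤ 16 := by
    rw [abs_pow]
    calc |z| ^ 4 ≤ 2 ^ 4 := pow_le_pow_left₀ (abs_nonneg _) hz2 4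
      _ = 16 := by norm_num
  have hBb : |B| ≤ 6 * (1 + |c|) + 16 * ‖f‖ := by
    rw [hB]
    refine (abs_add_le _ _).trans ?_
    rw [abs_mul, abs_mul, abs_of_pos (by norm_num : (0 : ℝ) < 6)]
    have h1 : |1 + κ| ≤ 1 + |c| := (abs_add_le _ _).trans (by rw [abs_one]; linarith)
    have h2 : |z ^ 4| * |f x| ≤ 16 * ‖f‖ := mul_le_mul hz4 (hf0 x) (abs_nonneg _) (by norm_num)
    linarith
  -- difference of the main terms
  have hs2 : |1 - s| ≤ 2 := by rw [abs_le]; constructor <;> linarith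
  have hdiff : |B - (6 + R x)| ≤ 6 * (θ * |c|) + 32 * θ * ‖f‖ + η / 2 := by
    have h1 : B - (6 + R x) = 6 * κ + (z ^ 4 - (1 - s) ^ 4) * f x + (1 - s) ^ 4 * (f x - F x) := by
      rw [hB, ← hFR x]; ring
    rw [h1]
    have h2 : |z ^ 4 - (1 - s) ^ 4| ≤ 32 * θ := by
      refine (pow4_diff z (1 - s) hz2 hs2).trans ?_
      have : |z - (1 - s)| ≤ θ := by
        have h3 : z - (1 - s) = θ * s := by rw [hz]; ring
        rw [h3, abs_mul, abs_of_pos hθ0]
        have : |s| ≤ 1 := abs_le.2 hsb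
        exact mul_le_of_le_one_right hθ0.le this
      linarith
    have h3 : |(1 - s) ^ 4| ≤ 16 := by
      rw [abs_pow]
      calc |1 - s| ^ 4 ≤ 2 ^ 4 := pow_le_pow_left₀ (abs_nonneg _) hs2 4
        _ = 16 := by norm_num
    have h4 : |(z ^ 4 - (1 - s) ^ 4) * f x| ≤ 32 * θ * ‖f‖ := by
      rw [abs_mul]
      exact mul_le_mul h2 (hf0 x) (abs_nonneg _) (by positivity)
    have h5 : |(1 - s) ^ 4 * (f x - F x)| ≤ 16 * (η / 32) := by
      rw [abs_mul]
      exact mul_le_mul h3 (hfF' x).le (abs_nonneg _) (by norm_num)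
    have h6 : |6 * κ| ≤ 6 * (θ * |c|) := by
      rw [abs_mul, abs_of_pos (by norm_num : (0 : ℝ) < 6)]
      linarith
    calc |6 * κ + (z ^ 4 - (1 - s) ^ 4) * f x + (1 - s) ^ 4 * (f x - F x)|
        ≤ |6 * κ| + |(z ^ 4 - (1 - s) ^ 4) * f x| + |(1 - s) ^ 4 * (f x - F x)| := by
          refine (abs_add_le _ _).trans ?_
          have := abs_add_le (6 * κ) ((z ^ 4 - (1 - s) ^ 4) * f x)
          linarith
      _ ≤ _ := by linarith
  have hfin : Real.exp A * B - (6 + R x) = (Real.exp A - 1) * B + (B - (6 + R x)) := by ring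
  rw [hfin]
  calc |(Real.exp A - 1) * B + (B - (6 + R x))|
      ≤ |(Real.exp A - 1) * B| + |B - (6 + R x)| := abs_add_le _ _
    _ ≤ 2 * (θ * K1) * (6 * (1 + |c|) + 16 * ‖f‖) + (6 * (θ * |c|) + 32 * θ * ‖f‖ + η / 2) := by
        apply add_le_add _ hdiff
        rw [abs_mul]
        apply mul_le_mul _ hBb (abs_nonneg _) (by positivity)
        linarith
    _ = θ * K2 + η / 2 := by rw [hK2]; ring
    _ < η := by linarith

end Pool.Agent.Helper42_Paneitz
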