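import Mathlib
import Pool.Agent.Helper42_Paneitz.Approx

set_option autoImplicit false

namespace Pool.Agent.Helper42_Paneitz

open scoped Manifold ContDiff InnerProductSpace Topology
open Filter

theorem Sm.paneitz {u : S4 → ℝ} (hu : Sm u) : Sm (paneitz u) := by
  have h := hu.sphLaplacian.sphLaplacian.add (hu.sphLaplacian.smul (-2))
  have he : (fun x => Helper42_Paneitz.sphLaplacian (Helper42_Paneitz.sphLaplacian u) x +
      -2 * Helper42_Paneitz.sphLaplacian u x) = Helper42_Paneitz.paneitz u := by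
    funext x
    unfold Helper42_Paneitz.paneitz
    ring
  rw [he] at h
  exact h

/-- The curvature function of the metric `e^{2u} g₀`. -/
theorem isPaneitzCurvature_of_sm {u : S4 → ℝ} (hu : Sm u) :
    IsPaneitzCurvature (fun x => Real.exp (-(4 * u x)) * (paneitz u x + 6)) := by
  have h1 : ContMDiff (𝓡 4) 𝓘(ℝ, ℝ) ∞ u := contMDiff_of_sm hu
  have h2 : ContMDiff (𝓡 4) 𝓘(ℝ, ℝ) ∞ (paneitz u) := contMDiff_of_sm hu.paneitz
  refine ⟨?_, u, h1, ?_⟩
  · have h3 : ContDiff ℝ ∞ (fun p : ℝ × ℝ => Real.exp (-(4 * p.1)) * (p.2 + 6)) := by fun_prop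
    exact h3.contMDiff.comp (h1.prodMk_space h2)
  · intro x
    have : Real.exp (-(4 * u x)) * Real.exp (4 * u x) = 1 := by
      rw [← Real.exp_add, neg_add_cancel, Real.exp_zero]
    calc paneitz u x = (Real.exp (-(4 * u x)) * Real.exp (4 * u x)) * (paneitz u x + 6) - 6 := by
          rw [this]; ring
      _ = _ := by ring

/-- A `Q`-curvature is positive somewhere (maximum principle proof). -/
theorem exists_pos {Q : S4 → ℝ} (hQ : IsPaneitzCurvature Q) : ∃ x, 0 < Q x := by
  obtain ⟨_, u, hu, h⟩ := hQ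
  have hsm : Sm u := sm_of_contMDiff hu
  by_contra hneg
  push Not at hneg
  have hlt : ∀ x, sphLaplacian (sphLaplacian u) x - 2 * sphLaplacian u x ≤ -6 := by
    intro x
    have h1 := h x
    unfold paneitz at h1
    have h2 : Q x * Real.exp (4 * u x) ≤ 0 :=
      mul_nonpos_of_nonpos_of_nonneg (hneg x) (Real.exp_pos (4 * u x)).le
    linarith
  have hne : (Set.univ : Set S4).Nonempty := by
    have : Nonempty S4 := by
      refine ⟨⟨EuclideanSpace.basisFun (Fin 5) ℝ 0, ?_⟩⟩
      rw [mem_sphere_zero_iff_norm]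
      exact (EuclideanSpace.basisFun (Fin 5) ℝ).orthonormal.1 0
    exact Set.univ_nonempty
  -- minimum of Δu
  obtain ⟨x0, _, hx0⟩ := isCompact_univ.exists_isMinOn hne
    (continuous_of_sm hsm.sphLaplacian).continuousOn
  have h0 : 0 ≤ sphLaplacian (sphLaplacian u) x0 :=
    sphLaplacian_nonneg hsm.sphLaplacian x0 fun y => hx0 (Set.mem_univ y)
  have h1 := hlt x0
  -- maximum of u
  obtain ⟨x1, _, hx1⟩ := isCompact_univ.exists_isMaxOn hne (continuous_of_sm hsm).continuousOn
  have h2 : sphLaplacian u x1 ≤ 0 := sphLaplacian_nonpos hsm x1 fun y => hx1 (Set.mem_univ y)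
  have h3 : sphLaplacian u x0 ≤ sphLaplacian u x1 := hx0 (Set.mem_univ x1)
  linarith

theorem closure_iff (Q : C(S4, ℝ)) :
    Q ∈ closure {f : C(S4, ℝ) | IsPaneitzCurvature f} ↔ ∃ x, 0 ≤ Q x := by
  constructor
  · intro hQ
    by_contra hneg
    push Not at hneg
    have : Nonempty S4 := by
      refine ⟨⟨EuclideanSpace.basisFun (Fin 5) ℝ 0, ?_⟩⟩
      rw [mem_sphere_zero_iff_norm]
      exact (EuclideanSpace.basisFun (Fin 5) ℝ).orthonormal.1 0
    obtain ⟨x1, _, hx1⟩ := isCompact_univ.exists_isMaxOn Set.univ_nonempty Q.continuous.continuousOn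
    have h1 := hneg x1
    obtain ⟨f, hf, hd⟩ := Metric.mem_closure_iff.1 hQ (-(Q x1)) (by linarith)
    obtain ⟨y, hy⟩ := exists_pos hf
    have h2 := (ContinuousMap.dist_lt_iff (by linarith)).1 hd y
    rw [Real.dist_eq] at h2
    have h3 : Q y ≤ Q x1 := hx1 (Set.mem_univ y)
    have h4 := abs_lt.1 h2
    linarith [h4.1]
  · rintro ⟨N, hN⟩
    rw [Metric.mem_closure_iff]
    intro ε hε
    set q : ℝ := Q N + ε / 4 with hq
    have hq0 : 0 < q := by linarith
    -- soft threshold
    set T : ℝ → ℝ := fun z => z - max (-(ε / 4)) (min (ε / 4) z) with hT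
    have hTc : Continuous T := by
      rw [hT]; fun_prop
    have hT0 : ∀ z, |z| < ε / 4 → T z = 0 := by
      intro z hz
      have h := abs_lt.1 hz
      show z - max (-(ε / 4)) (min (ε / 4) z) = 0
      rw [min_eq_right h.2.le, max_eq_right h.1.le, sub_self]
    have hTb : ∀ z, |T z - z| ≤ ε / 4 := by
      intro z
      have h1 : T z - z = -max (-(ε / 4)) (min (ε / 4) z) := by
        show z - max (-(ε / 4)) (min (ε / 4) z) - z = _
        ring
      rw [h1, abs_neg, abs_le]
      exact ⟨le_max_left _ _, max_le (by linarith) (min_le_left _ _)⟩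
    set R0 : S4 → ℝ := fun x => T (Q x - Q N) with hR0
    have hR0c : Continuous R0 := hTc.comp (Q.continuous.sub continuous_const)
    set R : C(S4, ℝ) := ⟨fun x => 6 / q * R0 x, continuous_const.mul hR0c⟩ with hR
    have hRN : ∀ᶠ x in 𝓝 N, R x = 0 := by
      have h1 : ∀ᶠ x in 𝓝 N, dist (Q x) (Q N) < ε / 4 :=
        (Metric.continuous_iff'.1 Q.continuous N (ε / 4) (by positivity))
      filter_upwards [h1] with x hx
      rw [Real.dist_eq] at hx
      show 6 / q * T (Q x - Q N) = 0
      rw [hT0 _ hx, mul_zero]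
    obtain ⟨u, hu, hub⟩ := approx R N hRN (6 / q * (ε / 4)) (by positivity)
    -- shift by a constant
    set c0 : ℝ := -(Real.log (q / 6)) / 4 with hc0
    have hec : Real.exp (-(4 * c0)) = q / 6 := by
      rw [hc0, show -(4 * (-(Real.log (q / 6)) / 4)) = Real.log (q / 6) by ring,
        Real.exp_log (by positivity)]
    have hu' : Sm (fun x => u x + c0) := hu.add (sm_const c0)
    have hcurv := isPaneitzCurvature_of_sm hu'
    have hP : ∀ x, paneitz (fun x => u x + c0) x = paneitz u x := by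
      intro x
      rw [paneitz_add hu (sm_const c0), paneitz_const, add_zero]
    refine ⟨⟨_, hcurv.1.continuous⟩, hcurv, ?_⟩
    rw [ContinuousMap.dist_lt_iff hε]
    intro x
    show dist (Q x) (Real.exp (-(4 * (u x + c0))) * (paneitz (fun x => u x + c0) x + 6)) < ε
    rw [hP x, Real.dist_eq, abs_sub_comm]
    have h1 : Real.exp (-(4 * (u x + c0))) = q / 6 * Real.exp (-(4 * u x)) := by
      rw [show -(4 * (u x + c0)) = -(4 * c0) + -(4 * u x) by ring, Real.exp_add, hec]
    have h2 : R x = 6 / q * R0 x := rfl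
    have h3 : Real.exp (-(4 * (u x + c0))) * (paneitz u x + 6) - Q x =
        q / 6 * (Real.exp (-(4 * u x)) * (paneitz u x + 6) - (6 + R x)) +
          (ε / 4 + (R0 x - (Q x - Q N))) := by
      rw [h1, h2]
      have : q / 6 * (6 / q * R0 x) = R0 x := by field_simp
      have h5 : q / 6 * (Real.exp (-(4 * u x)) * (paneitz u x + 6) - (6 + 6 / q * R0 x)) =
        q / 6 * Real.exp (-(4 * u x)) * (paneitz u x + 6) - q - q / 6 * (6 / q * R0 x) := by ring
      rw [h5, this, hq]
      ring
    rw [h3]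
    have h4 : |q / 6 * (Real.exp (-(4 * u x)) * (paneitz u x + 6) - (6 + R x))| < ε / 4 := by
      rw [abs_mul, abs_of_pos (by positivity : 0 < q / 6)]
      calc q / 6 * |Real.exp (-(4 * u x)) * (paneitz u x + 6) - (6 + R x)|
          < q / 6 * (6 / q * (ε / 4)) := mul_lt_mul_of_pos_left (hub x) (by positivity)
        _ = ε / 4 := by field_simp
    have h5 : |R0 x - (Q x - Q N)| ≤ ε / 4 := hTb _
    calc |q / 6 * (Real.exp (-(4 * u x)) * (paneitz u x + 6) - (6 + R x)) +
          (ε / 4 + (R0 x - (Q x - Q N)))|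
        ≤ |q / 6 * (Real.exp (-(4 * u x)) * (paneitz u x + 6) - (6 + R x))| +
          (|ε / 4| + |R0 x - (Q x - Q N)|) :=
          (abs_add_le _ _).trans (add_le_add le_rfl (abs_add_le _ _))
      _ < ε := by
        rw [abs_of_pos (by positivity : 0 < ε / 4)]
        linarith

end Pool.Agent.Helper42_Paneitz
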